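import Mathlib
import Pool.Agent.Lib.MP_c11385_co.AlmostAll

set_option autoImplicit false

namespace Pool.Agent.Results.MP_c11385_co.AlmostAll

open Pool.Agent.Lib.MP_c11385_co

theorem result (m : ℕ) :
    ((Set.ncard {σ : Equiv.Perm (Fin m) | ¬ ∀ N : ℕ,
      648 * ((m + m : ℕ) : ℝ) ^ (3 / 2 : ℝ) * (1 + Real.log ((m + m : ℕ) : ℝ)) ^ 2 ≤ N →
      ∀ R : SimpleGraph (Fin N),
      (∃ f : Fin (m + m) → Fin N, StrictMono f ∧
        ∀ i j : Fin (m + m), (permMatching σ).Adj i j → R.Adj (f i) (f j)) ∨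
      (∃ a b c : Fin N, a < b ∧ b < c ∧ ¬ R.Adj a b ∧ ¬ R.Adj b c ∧ ¬ R.Adj a c)}) : ℝ)
      * m ^ 2 ≤ 1024 * m.factorial :=
  almost_all m

end Pool.Agent.Results.MP_c11385_co.AlmostAll
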