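import Mathlib
import Pool.Agent.Lib.MP_c11385_co.Partition

set_option autoImplicit false

namespace Pool.Agent.Results.MP_c11385_co.PartitionBound

open Pool.Agent.Lib.MP_c11385_co

theorem result (n k r r' : ℕ) (hr : r ≤ n)
    (M : SimpleGraph (Fin n))
    (hM1 : ∀ v : Fin n, ∃! w : Fin n, M.Adj v w)
    (hM2 : ∀ i j : Fin n, M.Adj i j → (i.val < k ↔ k ≤ j.val))
    (q : Fin n → Fin r) (s : Fin n → Fin r') (hq : Monotone q) (hs : Monotone s)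
    (X : Set (Fin n × Fin n)) (μ : Fin r → ℕ) (ν : Fin r' → ℕ)
    (hμ0 : ∀ a, 1 ≤ μ a) (hν0 : ∀ b, 1 ≤ ν b)
    (hμ : ∀ a b, Set.ncard {e | e ∈ crossEdges M k ∧ e ∉ X ∧ q e.1 = a ∧ s e.2 = b} ≤ μ a)
    (hν : ∀ a b, Set.ncard {e | e ∈ crossEdges M k ∧ e ∉ X ∧ q e.1 = a ∧ s e.2 = b} ≤ ν b)
    (N : ℕ)
    (hN : 11 * (n : ℝ) * ((1 + Real.log n) * ((∑ a, (μ a : ℝ)) + ∑ b, (ν b : ℝ)) + X.ncard) ≤ N)
    (R : SimpleGraph (Fin N)) :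
    (∃ f : Fin n → Fin N, StrictMono f ∧ ∀ i j : Fin n, M.Adj i j → R.Adj (f i) (f j)) ∨
    (∃ a b c : Fin N, a < b ∧ b < c ∧ ¬ R.Adj a b ∧ ¬ R.Adj b c ∧ ¬ R.Adj a c) :=
  partition_bound n k r r' hr M hM1 hM2 q s hq hs X μ ν hμ0 hν0 hμ hν N hN R

end Pool.Agent.Results.MP_c11385_co.PartitionBound
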